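import Pool.Agent.H19.N6.Rec

set_option autoImplicit false

/-! # Block T (helper19): fixing the linear forms one after the other -/

open MvPolynomial Filter

open scoped BigOperators

namespace Pool.Agent.H19.N6

open Pool.Agent.H62.N6

lemma big_fiber_val {α : Type*} (S : Finset α) (g : α → ℤ) :
    ∃ y : ℤ, S.card ≤ (S.image g).card * (S.filter fun a => g a = y).card := by
  classical
  rcases S.eq_empty_or_nonempty with rfl | hS
  · exact ⟨0, by simp⟩
  · obtain ⟨y, -, hmax⟩ := Finset.exists_max_image (S.image g)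
      (fun b => (S.filter fun a => g a = b).card) (hS.image g)
    refine ⟨y, ?_⟩
    rw [Finset.card_eq_sum_card_image g S]
    exact Finset.sum_le_card_nsmul _ _ _ hmax

lemma eval_lin {A : Type} [CommRing A] {σ : Type} [Fintype σ] (c : σ → ℤ) (w : σ → A) :
    eval w (lin A c) = ∑ i, (c i : A) * w i := by
  simp [lin, map_sum]

theorem fix_forms {U : Ultrafilter ℕ} {B : ℕ → ℕ} (hB : Tendsto B (U : Filter ℕ) atTop)
    {σ : Type} [Fintype σ] {K : Type} [Field K] {φ : (ℕ → ℤ) →+* K} (hK : IsK U φ)
    (ε : σ → ℤ) {f : ℕ} (h : Fin f → σ → ℤ) (N : MvPolynomial σ ℤ)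
    (hN : ∀ (k : Type) [Field k] [CharZero k] (ξ : σ → k), Sol ε ξ →
      aeval ξ N ≠ 0 → Cone ε ξ h) (E : ℝ) (D : ℕ)
    (hE : ∀ c : ℕ, c ≤ f → c ≤ D → (c : ℝ) + gK (D - c) 0 ≤ E) :
    ∀ (n i : ℕ), i + n = f → ∀ (u : Fin f → K) (Q : Ideal (MvPolynomial σ K)), Q.IsPrime →
    (∀ n, 1 ≤ n → n ≤ 4 → pF K ε n ∈ Q) →
    (∀ l : Fin f, (l : ℕ) < i → lin K (h l) - C (u l) ∈ Q) →
    ∀ (c : ℕ), c ≤ i → ∀ m : ℕ, HasDim Q m → c + m ≤ D →
    ∀ (S : ℕ → Finset (σ → ℤ)), Van U φ S Q → InBox B S →
    (∀ j, ∀ z ∈ S j, eval z N ≠ 0) → Expo U B S (E - c) := by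
  classical
  intro n
  induction n with
  | zero =>
    intro i hi u Q hQ heq hlin c hc m hm hcm S hV hbox hN0
    have h1 := rec_proof hB hK ε h N hN u m Q hQ hm heq
      (fun l => hlin l (by have := l.isLt; omega)) S hV hbox hN0 [] (by simp)
      List.Pairwise.nil (by simp)
    simp only [List.map_nil, List.sum_nil] at h1
    refine expo_mono hB h1 ?_
    have h2 := hE c (by omega) (by omega)
    have h3 : gK m 0 ≤ gK (D - c) 0 := gK_mono (by omega) 0
    linarith
  | succ n ih =>
    intro i hi u Q hQ heq hlin c hc m hm hcm S hV hbox hN0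
    have hif : i < f := by omega
    set l0 : Fin f := ⟨i, hif⟩ with hl0
    set g : (σ → ℤ) → ℤ := fun z => ∑ a, h l0 a * z a with hg
    choose v hv using fun j => big_fiber_val (S j) g
    set S' : ℕ → Finset (σ → ℤ) := fun j => (S j).filter fun z => g z = v j with hS'
    have hS'S : ∀ j, S' j ⊆ S j := fun j => Finset.filter_subset _ _
    set x : K := φ v with hx
    have hupd : ∀ Q' : Ideal (MvPolynomial σ K), Q ≤ Q' → lin K (h l0) - C x ∈ Q' →
        ∀ l : Fin f, (l : ℕ) < i + 1 →
          lin K (h l) - C (Function.update u l0 x l) ∈ Q' := by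
      intro Q' hle hx' l hl
      by_cases hll : l = l0
      · subst hll
        rwa [Function.update_self]
      · rw [Function.update_of_ne hll]
        refine hle (hlin l ?_)
        have : (l : ℕ) ≠ i := fun h => hll (Fin.ext h)
        omega
    by_cases hcase : lin K (h l0) - C x ∈ Q
    · exact ih (i + 1) (by omega) (Function.update u l0 x) Q hQ heq (hupd Q le_rfl hcase) c
        (by omega) m hm hcm S hV hbox hN0
    · have hVF : VanF U φ S' (lin K (h l0) - C x) := by
        intro z hz
        rw [map_sub, eval_lin, eval_C]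
        have h1 : ∑ a, (h l0 a : K) * ptS φ z a = φ (fun j => g (z j)) := by
          have h2 : (fun j => g (z j)) = ∑ a, ((h l0 a : ℕ → ℤ)) * fun j => z j a := by
            funext j
            simp [hg, Finset.sum_apply]
          rw [h2, map_sum]
          refine Finset.sum_congr rfl fun a _ => ?_
          rw [map_mul, map_intCast]
          rfl
        rw [h1, hx, ← map_sub, hK.ker]
        filter_upwards [hz] with j hj
        have h3 := (Finset.mem_filter.mp hj).2
        simp [h3]
      have hE' : Expo U B S' (E - ((c + 1 : ℕ) : ℝ)) := by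
        refine prime_ind hK (fun S => Expo U B S (E - ((c + 1 : ℕ) : ℝ)))
          (fun S hS => expo_empty hS) (fun S S' S'' h1 h2 h3 => expo_union hB h1 h2 h3)
          (Q ⊔ Ideal.span {lin K (h l0) - C x}) S'
          (van_sup_span (van_mono hV (Eventually.of_forall hS'S)) hVF) ?_
        intro Q' hQ' hle S'' hS'' hV''
        have hmem : lin K (h l0) - C x ∈ Q' :=
          hle (Ideal.mem_sup_right (Ideal.mem_span_singleton_self _))
        have hQQ' : Q < Q' := by
          refine lt_of_le_of_ne (le_sup_left.trans hle) ?_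
          rintro rfl
          exact hcase hmem
        obtain ⟨m', hm'⟩ := exists_hasDim Q' hQ'.ne_top
        have hd : m' < m := HasDim.lt hQ hQQ' hm hm'
        exact ih (i + 1) (by omega) (Function.update u l0 x) Q' hQ'
          (fun n h1 h4 => hQQ'.le (heq n h1 h4)) (hupd Q' hQQ'.le hmem) (c + 1)
          (by omega) m' hm' (by omega) S'' hV''
          (fun j z hz => hbox j z (hS'S j (hS'' j hz)))
          (fun j z hz => hN0 j z (hS'S j (hS'' j hz)))
      -- number of values
      have hcard : ∀ᶠ j in (U : Filter ℕ), ((S j).card : ℝ) ≤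
          ((2 * ∑ a, |h l0 a| + 1 : ℤ) : ℝ) * (B j : ℝ) ^ (1 : ℝ) * ((S' j).card : ℝ) := by
        filter_upwards [ev_pos hB] with j hj
        have hj' : (1 : ℤ) ≤ (B j : ℤ) := by exact_mod_cast hj
        set M : ℤ := (∑ a, |h l0 a|) * B j with hM
        have hM0 : 0 ≤ M := mul_nonneg (Finset.sum_nonneg fun _ _ => abs_nonneg _)
          (by positivity)
        have h1 : (S j).image g ⊆ Finset.Icc (-M) M := by
          intro y hy
          obtain ⟨z, hz, rfl⟩ := Finset.mem_image.mp hy
          rw [Finset.mem_Icc, ← abs_le, hM, Finset.sum_mul]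
          refine (Finset.abs_sum_le_sum_abs _ _).trans (Finset.sum_le_sum fun a _ => ?_)
          rw [abs_mul]
          refine mul_le_mul_of_nonneg_left ?_ (abs_nonneg _)
          have := hbox j z hz a
          rw [abs_of_nonneg this.1]
          exact this.2
        have h2 : (((S j).image g).card : ℤ) ≤ 2 * M + 1 := by
          have h3 := Finset.card_le_card h1
          rw [Int.card_Icc] at h3
          omega
        have h3 : ((S j).card : ℤ) ≤ (2 * M + 1) * ((S' j).card : ℤ) := by
          have h4 : ((S j).card : ℤ) ≤ (((S j).image g).card : ℤ) * ((S' j).card : ℤ) := by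
            exact_mod_cast hv j
          exact h4.trans (mul_le_mul_of_nonneg_right h2 (by positivity))
        have h5 : (2 * M + 1 : ℤ) ≤ (2 * ∑ a, |h l0 a| + 1) * B j := by
          rw [hM]
          nlinarith
        have h6 : ((S j).card : ℤ) ≤ ((2 * ∑ a, |h l0 a| + 1) * B j) * ((S' j).card : ℤ) :=
          h3.trans (mul_le_mul_of_nonneg_right h5 (by positivity))
        rw [Real.rpow_one]
        exact_mod_cast h6
      have h7 := expo_scale hB hE' hcard
      refine expo_mono hB h7 (le_of_eq ?_)
      push_cast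
      ring

end Pool.Agent.H19.N6
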