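import Pool.Agent.H62.N6.Defs

set_option autoImplicit false

/-! # Block T (helper19): representatives of polynomials, prime induction, arithmetic of exponents -/

open MvPolynomial Filter

open scoped BigOperators

namespace Pool.Agent.H19.N6

open Pool.Agent.H62.N6

variable {U : Ultrafilter ℕ} {σ : Type} {K : Type} [Field K] {φ : (ℕ → ℤ) →+* K}

lemma exists_mul_map (hK : IsK U φ) (F : MvPolynomial σ K) :
    ∃ (b : ℕ → ℤ) (G : MvPolynomial σ (ℕ → ℤ)), φ b ≠ 0 ∧ C (φ b) * F = map φ G := by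
  induction F using MvPolynomial.induction_on with
  | C x =>
    obtain ⟨a, b, hb, hx⟩ := hK.frac x
    refine ⟨b, C a, hb, ?_⟩
    rw [map_C, ← hx, ← C_mul, mul_comm x]
  | add F1 F2 ih1 ih2 =>
    obtain ⟨b1, G1, hb1, h1⟩ := ih1
    obtain ⟨b2, G2, hb2, h2⟩ := ih2
    refine ⟨b1 * b2, C b2 * G1 + C b1 * G2, ?_, ?_⟩
    · rw [map_mul]
      exact mul_ne_zero hb1 hb2
    · rw [map_add (MvPolynomial.map φ), map_mul (MvPolynomial.map φ), map_mul (MvPolynomial.map φ),
        map_C, map_C, ← h1, ← h2, map_mul φ, C_mul]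
      ring
  | mul_X F i ih =>
    obtain ⟨b, G, hb, h⟩ := ih
    refine ⟨b, G * X i, hb, ?_⟩
    rw [map_mul, map_X, ← h]
    ring

lemma eval_ptS_map (z : ℕ → σ → ℤ) (G : MvPolynomial σ (ℕ → ℤ)) :
    eval (ptS φ z) (map φ G) = φ (eval (fun i j => z j i) G) := by
  rw [eval_map]
  have : (ptS φ z) = fun i => φ ((fun i j => z j i : σ → ℕ → ℤ) i) := rfl
  rw [this]
  exact (eval₂_comp_left φ (RingHom.id _) _ G).symm

lemma eval_pi (z : ℕ → σ → ℤ) (G : MvPolynomial σ (ℕ → ℤ)) (j : ℕ) :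
    (eval (fun i j => z j i) G : ℕ → ℤ) j =
      eval (z j) (map (Pi.evalRingHom (fun _ => ℤ) j) G) := by
  rw [eval_map]
  have h := eval₂_comp_left (Pi.evalRingHom (fun _ : ℕ => ℤ) j) (RingHom.id _)
    (fun i j => z j i) G
  exact h

/-- integral representatives of a polynomial over `K` -/
theorem exists_repr (hK : IsK U φ) (F : MvPolynomial σ K) :
    ∃ G : ℕ → MvPolynomial σ ℤ, ∀ z : ℕ → σ → ℤ,
      eval (ptS φ z) F = 0 ↔ ∀ᶠ j in (U : Filter ℕ), eval (z j) (G j) = 0 := by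
  obtain ⟨b, G, hb, h⟩ := exists_mul_map hK F
  refine ⟨fun j => map (Pi.evalRingHom (fun _ => ℤ) j) G, fun z => ?_⟩
  have h1 : φ b * eval (ptS φ z) F = φ (eval (fun i j => z j i) G) := by
    rw [← eval_ptS_map, ← h, map_mul, eval_C]
  have h2 : eval (ptS φ z) F = 0 ↔ φ (eval (fun i j => z j i) G) = 0 := by
    rw [← h1, mul_eq_zero]
    exact ⟨Or.inr, fun h => h.resolve_left hb⟩
  rw [h2, hK.ker]
  simp only [eval_pi]

lemma van_mono {P : Ideal (MvPolynomial σ K)} {S S' : ℕ → Finset (σ → ℤ)}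
    (h : Van U φ S P) (hs : ∀ᶠ j in (U : Filter ℕ), S' j ⊆ S j) : Van U φ S' P := by
  intro F hF z hz
  refine h F hF z ?_
  filter_upwards [hz, hs] with j h1 h2 using h2 h1

lemma exists_seq {S : ℕ → Finset (σ → ℤ)} (h : ¬ ∀ᶠ j in (U : Filter ℕ), S j = ∅) :
    ∃ z : ℕ → σ → ℤ, ∀ᶠ j in (U : Filter ℕ), z j ∈ S j := by
  classical
  have h1 : ∀ᶠ j in (U : Filter ℕ), ¬ S j = ∅ := Ultrafilter.eventually_not.mpr h
  refine ⟨fun j => if hj : (S j).Nonempty then hj.choose else 0, ?_⟩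
  filter_upwards [h1] with j hj
  have hj' : (S j).Nonempty := Finset.nonempty_iff_ne_empty.mpr hj
  rw [dif_pos hj']
  exact hj'.choose_spec

lemma empty_of_one {S : ℕ → Finset (σ → ℤ)} (h : VanF U φ S (1 : MvPolynomial σ K)) :
    ∀ᶠ j in (U : Filter ℕ), S j = ∅ := by
  by_contra hcon
  obtain ⟨z, hz⟩ := exists_seq hcon
  have := h z hz
  simp at this

lemma van_sup_span {P : Ideal (MvPolynomial σ K)} {S : ℕ → Finset (σ → ℤ)}
    (h : Van U φ S P) {F : MvPolynomial σ K} (hF : VanF U φ S F) :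
    Van U φ S (P ⊔ Ideal.span {F}) := by
  intro G hG z hz
  obtain ⟨a, ha, b, hb, rfl⟩ := Submodule.mem_sup.mp hG
  obtain ⟨c, rfl⟩ := Ideal.mem_span_singleton'.mp hb
  rw [map_add, map_mul, h a ha z hz, hF z hz, mul_zero, add_zero]

/-- PRIME INDUCTION -/
theorem prime_ind [Fintype σ] (hK : IsK U φ) (Φ : (ℕ → Finset (σ → ℤ)) → Prop)
    (h0 : ∀ S, (∀ᶠ j in (U : Filter ℕ), S j = ∅) → Φ S)
    (hU : ∀ S S' S'' : ℕ → Finset (σ → ℤ), (∀ j, ∀ z ∈ S j, z ∈ S' j ∨ z ∈ S'' j) →
      Φ S' → Φ S'' → Φ S)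
    (I : Ideal (MvPolynomial σ K)) (S : ℕ → Finset (σ → ℤ)) (hS : Van U φ S I)
    (hP : ∀ P : Ideal (MvPolynomial σ K), P.IsPrime → I ≤ P →
      ∀ S' : ℕ → Finset (σ → ℤ), (∀ j, S' j ⊆ S j) → Van U φ S' P → Φ S') : Φ S := by
  classical
  suffices H : ∀ J : Ideal (MvPolynomial σ K), I ≤ J → ∀ S' : ℕ → Finset (σ → ℤ),
      (∀ j, S' j ⊆ S j) → Van U φ S' J → Φ S' from
    H I le_rfl S (fun _ => Finset.Subset.refl _) hS
  intro J
  induction J using WellFoundedGT.induction with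
  | _ J ih =>
    intro hIJ S' hS' hJ
    by_cases htop : J = ⊤
    · subst htop
      exact h0 _ (empty_of_one (hJ 1 Submodule.mem_top))
    by_cases hpr : J.IsPrime
    · exact hP J hpr hIJ S' hS' hJ
    · rw [Ideal.isPrime_iff] at hpr
      push Not at hpr
      obtain ⟨f, g, hfg, hf, hg⟩ := hpr htop
      obtain ⟨G, hG⟩ := exists_repr hK f
      have hlt : ∀ a : MvPolynomial σ K, a ∉ J → J < J ⊔ Ideal.span {a} := by
        intro a ha
        refine lt_of_le_of_ne le_sup_left fun h => ha ?_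
        rw [h]
        exact Ideal.mem_sup_right (Ideal.mem_span_singleton_self a)
      refine hU S' (fun j => (S' j).filter fun z => eval z (G j) = 0)
        (fun j => (S' j).filter fun z => ¬ eval z (G j) = 0) (fun j z hz => ?_) ?_ ?_
      · by_cases h : eval z (G j) = 0
        · exact Or.inl (Finset.mem_filter.mpr ⟨hz, h⟩)
        · exact Or.inr (Finset.mem_filter.mpr ⟨hz, h⟩)
      · refine ih _ (hlt f hf) (hIJ.trans le_sup_left) _
          (fun j => (Finset.filter_subset _ _).trans (hS' j)) ?_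
        refine van_sup_span
          (van_mono hJ (Eventually.of_forall fun j => Finset.filter_subset _ _)) ?_
        intro z hz
        rw [hG]
        filter_upwards [hz] with j hj using (Finset.mem_filter.mp hj).2
      · refine ih _ (hlt g hg) (hIJ.trans le_sup_left) _
          (fun j => (Finset.filter_subset _ _).trans (hS' j)) ?_
        refine van_sup_span
          (van_mono hJ (Eventually.of_forall fun j => Finset.filter_subset _ _)) ?_
        intro z hz
        have h1 : eval (ptS φ z) (f * g) = 0 :=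
          hJ _ hfg z (by filter_upwards [hz] with j hj using (Finset.mem_filter.mp hj).1)
        rw [map_mul, mul_eq_zero] at h1
        refine h1.resolve_left fun h2 => ?_
        rw [hG] at h2
        obtain ⟨j, hj1, hj2⟩ := (h2.and hz).exists
        exact (Finset.mem_filter.mp hj2).2 hj1

/-! ### exponents -/

variable {B : ℕ → ℕ} {S S' S'' : ℕ → Finset (σ → ℤ)} {a a' : ℝ}

lemma ev_ge (hB : Tendsto B (U : Filter ℕ) atTop) {e : ℝ} (he : 0 < e) (C : ℝ) :
    ∀ᶠ j in (U : Filter ℕ), C ≤ (B j : ℝ) ^ e := by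
  have h1 : Tendsto (fun j => (B j : ℝ) ^ e) (U : Filter ℕ) atTop :=
    (tendsto_rpow_atTop he).comp (tendsto_natCast_atTop_atTop.comp hB)
  exact h1.eventually_ge_atTop C

lemma ev_pos (hB : Tendsto B (U : Filter ℕ) atTop) :
    ∀ᶠ j in (U : Filter ℕ), (1 : ℝ) ≤ (B j : ℝ) := by
  have h1 : Tendsto (fun j => (B j : ℝ)) (U : Filter ℕ) atTop :=
    tendsto_natCast_atTop_atTop.comp hB
  exact h1.eventually_ge_atTop 1

lemma expo_empty (h : ∀ᶠ j in (U : Filter ℕ), S j = ∅) : Expo U B S a := by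
  intro e he
  filter_upwards [h] with j hj
  rw [hj, Finset.card_empty, Nat.cast_zero]
  exact Real.rpow_nonneg (Nat.cast_nonneg _) _

lemma expo_mono (hB : Tendsto B (U : Filter ℕ) atTop) (h : Expo U B S a) (haa : a ≤ a') :
    Expo U B S a' := by
  intro e he
  filter_upwards [h e he, ev_pos hB] with j h1 h2
  exact h1.trans (Real.rpow_le_rpow_of_exponent_le h2 (by linarith))

/-- scaling: `|S_j| ≤ C B_j^c |S'_j|` -/
lemma expo_scale (hB : Tendsto B (U : Filter ℕ) atTop) (h : Expo U B S' a) {C c : ℝ}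
    (hs : ∀ᶠ j in (U : Filter ℕ),
      ((S j).card : ℝ) ≤ C * (B j : ℝ) ^ c * ((S' j).card : ℝ)) :
    Expo U B S (a + c) := by
  intro e he
  filter_upwards [h (e / 2) (by linarith), hs, ev_pos hB, ev_ge hB (half_pos he) |C|]
    with j h1 h2 h3 h4
  have hpos : (0 : ℝ) < (B j : ℝ) := lt_of_lt_of_le one_pos h3
  calc ((S j).card : ℝ) ≤ C * (B j : ℝ) ^ c * ((S' j).card : ℝ) := h2
    _ ≤ |C| * (B j : ℝ) ^ c * ((S' j).card : ℝ) := by
        gcongr
        exact le_abs_self C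
    _ ≤ (B j : ℝ) ^ (e / 2) * (B j : ℝ) ^ c * (B j : ℝ) ^ (a + e / 2) := by
        gcongr
    _ = (B j : ℝ) ^ (a + c + e) := by
        rw [← Real.rpow_add hpos, ← Real.rpow_add hpos]
        congr 1
        ring

lemma expo_union (hB : Tendsto B (U : Filter ℕ) atTop)
    (hs : ∀ j, ∀ z ∈ S j, z ∈ S' j ∨ z ∈ S'' j) (h1 : Expo U B S' a)
    (h2 : Expo U B S'' a) : Expo U B S a := by
  classical
  intro e he
  filter_upwards [h1 (e / 2) (by linarith), h2 (e / 2) (by linarith), ev_pos hB,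
    ev_ge hB (half_pos he) 2] with j h1 h2 h4 h5
  have hpos : (0 : ℝ) < (B j : ℝ) := lt_of_lt_of_le one_pos h4
  have h3 : S j ⊆ S' j ∪ S'' j := fun z hz => Finset.mem_union.mpr (hs j z hz)
  have hc : ((S j).card : ℝ) ≤ ((S' j).card : ℝ) + ((S'' j).card : ℝ) := by
    exact_mod_cast (Finset.card_le_card h3).trans (Finset.card_union_le _ _)
  calc ((S j).card : ℝ) ≤ (B j : ℝ) ^ (a + e / 2) + (B j : ℝ) ^ (a + e / 2) := by linarith
    _ = 2 * (B j : ℝ) ^ (a + e / 2) := by ring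
    _ ≤ (B j : ℝ) ^ (e / 2) * (B j : ℝ) ^ (a + e / 2) := by gcongr
    _ = (B j : ℝ) ^ (a + e) := by
        rw [← Real.rpow_add hpos]
        congr 1
        ring

/-- closure: it is enough to have all larger exponents -/
lemma expo_of_forall {c : ℝ} (hc : 0 < c)
    (h : ∀ η : ℝ, 0 < η → Expo U B S (a + c * η)) : Expo U B S a := by
  intro e he
  have hη : 0 < e / (2 * c) := by positivity
  filter_upwards [h _ hη (e / 2) (by linarith)] with j h1
  refine h1.trans (le_of_eq ?_)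
  congr 1
  field_simp
  ring

/-- the largest fibre -/
lemma big_fiber {α β : Type*} [DecidableEq β] (S : Finset α) (f : α → β) :
    ∃ S' ⊆ S, (∀ a ∈ S', ∀ b ∈ S', f a = f b) ∧ S.card ≤ (S.image f).card * S'.card := by
  classical
  rcases S.eq_empty_or_nonempty with rfl | hS
  · exact ⟨∅, Finset.Subset.refl _, by simp, by simp⟩
  · obtain ⟨y, hy, hmax⟩ := Finset.exists_max_image (S.image f)
      (fun b => (S.filter fun a => f a = b).card) (hS.image f)
    refine ⟨S.filter fun a => f a = y, Finset.filter_subset _ _, ?_, ?_⟩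
    · intro a ha b hb
      rw [(Finset.mem_filter.mp ha).2, (Finset.mem_filter.mp hb).2]
    · rw [Finset.card_eq_sum_card_image f S]
      exact Finset.sum_le_card_nsmul _ _ _ hmax

end Pool.Agent.H19.N6
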