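import Pool.Agent.H19.N6.Frame
import Pool.Agent.H62.N6.BlkF

set_option autoImplicit false

/-! # Block T (helper19): good primes -/

open MvPolynomial Filter

open scoped BigOperators

namespace Pool.Agent.H19.N6

open Pool.Agent.H62.N6

variable {U : Ultrafilter ℕ} {σ : Type} [Fintype σ]

omit [Fintype σ] in
/-- trivial bound for the values of an integral polynomial in a box -/
lemma eval_le (N : MvPolynomial σ ℤ) {B : ℕ} (hB : 1 ≤ B) (z : σ → ℤ)
    (hz : ∀ i, |z i| ≤ (B : ℤ)) :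
    |eval z N| ≤ (∑ m ∈ N.support, |N.coeff m|) * (B : ℤ) ^ N.totalDegree := by
  rw [eval_eq, Finset.sum_mul]
  refine (Finset.abs_sum_le_sum_abs _ _).trans (Finset.sum_le_sum fun m hm => ?_)
  rw [abs_mul]
  refine mul_le_mul_of_nonneg_left ?_ (abs_nonneg _)
  rw [Finset.abs_prod]
  have h1 : ∀ i ∈ m.support, |z i ^ m i| ≤ (B : ℤ) ^ m i := by
    intro i _
    rw [abs_pow]
    exact pow_le_pow_left₀ (abs_nonneg _) (hz i) _
  refine (Finset.prod_le_prod (fun i _ => abs_nonneg _) h1).trans ?_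
  rw [Finset.prod_pow_eq_pow_sum]
  refine pow_le_pow_right₀ (by exact_mod_cast hB) ?_
  exact le_totalDegree hm

theorem good_prime {B : ℕ → ℕ} (hB : Tendsto B (U : Filter ℕ) atTop)
    (S : ℕ → Finset (σ → ℤ)) (hbox : InBox B S) (N : MvPolynomial σ ℤ)
    (hN : ∀ j, ∀ z ∈ S j, eval z N ≠ 0) (b : ℝ) (hb : 0 < b) (L : List (PC σ)) :
    ∃ (q : ℕ → ℕ) (C : ℝ) (T : ℕ) (S' : ℕ → Finset (σ → ℤ)), (∀ j, S' j ⊆ S j) ∧
      (∀ᶠ j in (U : Filter ℕ), (q j).Prime ∧ (B j : ℝ) ^ b ≤ (q j : ℝ) ∧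
        (q j : ℝ) ≤ C * (B j : ℝ) ^ b ∧ (S j).card ≤ T * (S' j).card ∧
        ∀ z ∈ S' j, ¬ (q j : ℤ) ∣ eval z N) ∧
      ∀ c ∈ L, ∀ᶠ j in (U : Filter ℕ), q j ≠ c.p j := by
  classical
  obtain ⟨T, hT⟩ := exists_nat_ge (((N.totalDegree : ℝ) + 1) / b)
  have hT0 : 0 < T := by
    have h1 : (0 : ℝ) < ((N.totalDegree : ℝ) + 1) / b := by positivity
    exact_mod_cast lt_of_lt_of_le h1 hT
  haveI : NeZero T := ⟨hT0.ne'⟩
  obtain ⟨C, q, hq1, hq2, hq3⟩ := exists_primes hB b hb (L.map PC.p) T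
  set A : Fin T → ℕ → Finset (σ → ℤ) := fun i j =>
    (S j).filter fun z => ¬ (q i j : ℤ) ∣ eval z N with hA
  have hmax : ∀ j, ∃ i : Fin T, ∀ i' : Fin T, (A i' j).card ≤ (A i j).card := by
    intro j
    obtain ⟨i, -, hi⟩ := Finset.exists_max_image (Finset.univ : Finset (Fin T))
      (fun i => (A i j).card) Finset.univ_nonempty
    exact ⟨i, fun i' => hi i' (Finset.mem_univ _)⟩
  choose ι hι using hmax
  have hq1' : ∀ᶠ j in (U : Filter ℕ), ∀ i, (q i j).Prime ∧ (B j : ℝ) ^ b ≤ (q i j : ℝ) ∧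
      (q i j : ℝ) ≤ C * (B j : ℝ) ^ b := eventually_all.mpr hq1
  have hq2' : ∀ᶠ j in (U : Filter ℕ), ∀ i i', i ≠ i' → q i j ≠ q i' j :=
    eventually_all.mpr fun i => eventually_all.mpr fun i' => by
      by_cases h : i = i'
      · exact Eventually.of_forall fun j hne => absurd h hne
      · exact (hq2 i i' h).mono fun j hj _ => hj
  refine ⟨fun j => q (ι j) j, C, T, fun j => A (ι j) j,
    fun j => Finset.filter_subset _ _, ?_, ?_⟩
  · filter_upwards [hq1', hq2', ev_pos hB, ev_ge hB (one_pos) (∑ m ∈ N.support, |N.coeff m| + 1 : ℤ)]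
      with j h1 h2 h3 h4
    refine ⟨(h1 (ι j)).1, (h1 (ι j)).2.1, (h1 (ι j)).2.2, ?_,
      fun z hz => (Finset.mem_filter.mp hz).2⟩
    have hcov : S j ⊆ Finset.univ.biUnion fun i => A i j := by
      intro z hz
      rw [Finset.mem_biUnion]
      by_contra hcon
      push Not at hcon
      have hall : ∀ i, (q i j : ℤ) ∣ eval z N := by
        intro i
        by_contra h5
        exact hcon i (Finset.mem_univ _) (Finset.mem_filter.mpr ⟨hz, h5⟩)
      have hprod : (∏ i, (q i j : ℤ)) ∣ eval z N := by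
        refine Finset.prod_dvd_of_coprime ?_ fun i _ => hall i
        intro i _ i' _ hii
        rw [Function.onFun, Nat.isCoprime_iff_coprime]
        exact (Nat.coprime_primes (h1 i).1 (h1 i').1).mpr (h2 i i' hii)
      have hle := Int.le_of_dvd (abs_pos.mpr (hN j z hz)) ((dvd_abs _ _).mpr hprod)
      have h3' : 1 ≤ B j := by exact_mod_cast h3
      have hbd := eval_le N h3' z fun i => by
        have := hbox j z hz i
        rw [abs_of_nonneg this.1]
        exact this.2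
      have h5 : ((∏ i, (q i j : ℤ) : ℤ) : ℝ) ≤
          ((∑ m ∈ N.support, |N.coeff m| : ℤ) : ℝ) * (B j : ℝ) ^ N.totalDegree := by
        exact_mod_cast hle.trans hbd
      have h6 : ((B j : ℝ) ^ b) ^ T ≤ ((∏ i, (q i j : ℤ) : ℤ) : ℝ) := by
        push_cast
        calc ((B j : ℝ) ^ b) ^ T = ∏ _i : Fin T, (B j : ℝ) ^ b := by simp
          _ ≤ ∏ i, (q i j : ℝ) := Finset.prod_le_prod
            (fun _ _ => Real.rpow_nonneg (Nat.cast_nonneg _) _) fun i _ => (h1 i).2.1
      have h7 : (B j : ℝ) ^ ((N.totalDegree : ℝ) + 1) ≤ ((B j : ℝ) ^ b) ^ T := by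
        rw [← Real.rpow_natCast ((B j : ℝ) ^ b), ← Real.rpow_mul (by linarith)]
        refine Real.rpow_le_rpow_of_exponent_le h3 ?_
        rw [div_le_iff₀ hb] at hT
        linarith
      rw [Real.rpow_add (by linarith), Real.rpow_natCast, Real.rpow_one] at h7
      have h8 : (0 : ℝ) < (B j : ℝ) ^ N.totalDegree := by positivity
      rw [Real.rpow_one] at h4
      push_cast at h4 h5
      have h9 := (h7.trans h6).trans (by push_cast; exact h5)
      nlinarith
    calc (S j).card ≤ (Finset.univ.biUnion fun i => A i j).card := Finset.card_le_card hcov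
      _ ≤ ∑ i, (A i j).card := Finset.card_biUnion_le
      _ ≤ ∑ _i : Fin T, (A (ι j) j).card := Finset.sum_le_sum fun i _ => hι j i
      _ = T * (A (ι j) j).card := by simp
  · intro c hc
    have h1 : ∀ᶠ j in (U : Filter ℕ), ∀ i, q i j ≠ c.p j :=
      eventually_all.mpr fun i => hq3 i c.p (List.mem_map_of_mem hc)
    exact h1.mono fun j hj => hj (ι j)

end Pool.Agent.H19.N6
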