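import Pool.Agent.H62.N6.BlkT
import Pool.Agent.H19.N64.H6

set_option autoImplicit false

/-! # From theorem T to the bound for the solutions without a common value -/

open MvPolynomial Filter

open scoped BigOperators

namespace Pool.Agent.H19.N6

open Pool.Agent.H62.N6 Pool.Agent.H19.N64

lemma sum_sg {R : Type} [CommRing R] (w : Fin 12 → R) :
    ∑ i, (sg i : R) * w i =
      ∑ i : Fin 6, w (finSumFinEquiv (Sum.inl i : Fin 6 ⊕ Fin 6)) -
        ∑ i : Fin 6, w (finSumFinEquiv (Sum.inr i : Fin 6 ⊕ Fin 6)) := by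
  have h := (finSumFinEquiv (m := 6) (n := 6)).sum_comp fun i => (sg i : R) * w i
  rw [← h, Fintype.sum_sum_type]
  have h1 : ∀ i : Fin 6, sg (finSumFinEquiv (Sum.inl i : Fin 6 ⊕ Fin 6)) = 1 := by decide
  have h2 : ∀ i : Fin 6, sg (finSumFinEquiv (Sum.inr i : Fin 6 ⊕ Fin 6)) = -1 := by decide
  simp only [h1, h2]
  simp [sub_eq_add_neg]

theorem hypT : HypT 6 5.995 := by
  classical
  intro B hB S hS
  obtain ⟨K, _, φ, hK⟩ := exists_isK (hyperfilter ℕ)
  have hB' : Tendsto B ((hyperfilter ℕ : Ultrafilter ℕ) : Filter ℕ) atTop :=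
    hB.mono_left Nat.hyperfilter_le_atTop
  set e : Fin 6 ⊕ Fin 6 ≃ Fin 12 := finSumFinEquiv with he
  set S' : ℕ → Finset (Fin 12 → ℤ) := fun j => (S j).image fun z i => z (e.symm i) with hS'
  have hmem : ∀ j, ∀ w ∈ S' j, ∃ z ∈ S j, ∀ i, w i = z (e.symm i) := by
    intro j w hw
    obtain ⟨z, hz, rfl⟩ := Finset.mem_image.mp hw
    exact ⟨z, hz, fun i => rfl⟩
  have hsol : ∀ j, ∀ w ∈ S' j, ∀ n, 1 ≤ n → n ≤ 4 → ∑ i, sg i * w i ^ n = 0 := by
    intro j w hw n h1 h4
    obtain ⟨z, hz, hwz⟩ := hmem j w hw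
    have h5 := sum_sg (R := ℤ) fun i => w i ^ n
    simp only [Int.cast_id] at h5
    rw [h5]
    have h6 : ∀ x : Fin 6 ⊕ Fin 6, w (finSumFinEquiv x) = z x := by
      intro x
      rw [hwz, he, Equiv.symm_apply_apply]
    simp only [h6]
    rw [(hS j z hz).2.1 n (Finset.mem_Icc.mpr ⟨h1, h4⟩), sub_self]
  have hinl : ∀ a b : Fin 6, sg (finSumFinEquiv (Sum.inl a : Fin 6 ⊕ Fin 6)) =
      sg (finSumFinEquiv (Sum.inl b : Fin 6 ⊕ Fin 6)) := by decide
  have hinr : ∀ a b : Fin 6, sg (finSumFinEquiv (Sum.inr a : Fin 6 ⊕ Fin 6)) =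
      sg (finSumFinEquiv (Sum.inr b : Fin 6 ⊕ Fin 6)) := by decide
  have hsgn : ∀ i i' : Fin 12, sg i ≠ sg i' →
      (∃ a b, e.symm i = Sum.inl a ∧ e.symm i' = Sum.inr b) ∨
      (∃ a b, e.symm i = Sum.inr a ∧ e.symm i' = Sum.inl b) := by
    intro i i' hii
    rcases hi : e.symm i with a | a
    · rcases hi' : e.symm i' with b | b
      · exfalso
        have h1 : i = e (Sum.inl a) := by rw [← hi, Equiv.apply_symm_apply]
        have h2 : i' = e (Sum.inl b) := by rw [← hi', Equiv.apply_symm_apply]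
        apply hii
        rw [h1, h2, he]
        exact hinl a b
      · exact Or.inl ⟨a, b, rfl, rfl⟩
    · rcases hi' : e.symm i' with b | b
      · exact Or.inr ⟨a, b, rfl, rfl⟩
      · exfalso
        have h1 : i = e (Sum.inr a) := by rw [← hi, Equiv.apply_symm_apply]
        have h2 : i' = e (Sum.inr b) := by rw [← hi', Equiv.apply_symm_apply]
        apply hii
        rw [h1, h2, he]
        exact hinr a b
  have hT := thmT hB' hK (Ideal.span {F | ∃ n, 1 ≤ n ∧ n ≤ 4 ∧ F = pF K sg n})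
    (fun n h1 h4 => Ideal.subset_span ⟨n, h1, h4, rfl⟩) S' (by
      intro F hF z hz
      have h1 : Ideal.span {F | ∃ n, 1 ≤ n ∧ n ≤ 4 ∧ F = pF K sg n} ≤
          RingHom.ker (eval (ptS φ z)) := by
        rw [Ideal.span_le]
        rintro G ⟨n, h1, h4, rfl⟩
        rw [SetLike.mem_coe, RingHom.mem_ker]
        have h2 : eval (ptS φ z) (pF K sg n) = φ (fun j => ∑ i, sg i * z j i ^ n) := by
          have h3 : (fun j => ∑ i, sg i * z j i ^ n) =
              ∑ i, ((sg i : ℤ) : ℕ → ℤ) * (fun j => z j i) ^ n := by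
            funext j
            simp [Finset.sum_apply]
          rw [h3, map_sum, pF, map_sum]
          refine Finset.sum_congr rfl fun i _ => ?_
          rw [map_mul (eval (ptS φ z)), map_mul φ, map_pow (eval (ptS φ z)), map_pow φ,
            map_intCast φ, eval_C, eval_X]
          rfl
        rw [h2, hK.ker]
        filter_upwards [hz] with j hj using hsol j _ hj n h1 h4
      exact h1 hF) (by
      intro j w hw i
      obtain ⟨z, hz, hwz⟩ := hmem j w hw
      rw [hwz]
      exact (hS j z hz).1 _) (by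
      intro j w hw i i' hii
      obtain ⟨z, hz, hwz⟩ := hmem j w hw
      rw [hwz, hwz]
      rcases hsgn i i' hii with ⟨a, b, h1, h2⟩ | ⟨a, b, h1, h2⟩
      · rw [h1, h2]
        exact (hS j z hz).2.2 a b
      · rw [h1, h2]
        exact ((hS j z hz).2.2 b a).symm)
  have h7 := hT 0.005 (by norm_num)
  filter_upwards [h7] with j hj
  have hcard : (S' j).card = (S j).card := by
    refine Finset.card_image_of_injective _ fun z z' hzz => ?_
    funext x
    have := congrFun hzz (e x)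
    simpa using this
  rw [hcard] at hj
  refine hj.trans (le_of_eq ?_)
  congr 1
  norm_num

theorem h6 : ∃ C a : ℝ, a < 6 ∧ ∀ B : ℕ, 1 ≤ B → ((adF 6 B).card : ℝ) ≤ C * (B : ℝ) ^ a := by
  obtain ⟨C, hC⟩ := ad_of_hypT hypT
  exact ⟨C, 5.995, by norm_num, hC⟩

end Pool.Agent.H19.N6
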