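import Pool.Agent.H19.N6.Good
import Pool.Agent.H62.N6.BlkD
import Pool.Agent.H62.N6.BlkL

set_option autoImplicit false

/-! # Block T (helper19): REC -/

open MvPolynomial Filter

open scoped BigOperators

namespace Pool.Agent.H19.N6

open Pool.Agent.H62.N6

lemma gK_succ (m : ℕ) (κ : ℝ) : gK (m + 1) κ = gK m κ + max (Kap (m + 1) - κ) 0 :=
  Finset.sum_range_succ _ _

lemma gK_mono {m m' : ℕ} (h : m ≤ m') (κ : ℝ) : gK m κ ≤ gK m' κ :=
  Finset.sum_le_sum_of_subset_of_nonneg (Finset.range_mono h) fun _ _ _ => le_max_right _ _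

lemma gK_anti (m : ℕ) {κ κ' : ℝ} (h : κ ≤ κ') : gK m κ' ≤ gK m κ :=
  Finset.sum_le_sum fun _ _ => max_le_max (by linarith) le_rfl

/-- the accounting: `m δ + g(m-1, κ+δ) ≤ g(m, κ) + m η`, `κ + δ = max(κ, K_m) + η` -/
lemma gK_step (m : ℕ) (κ η : ℝ) (hη : 0 ≤ η) :
    ((m : ℝ) + 1) * (max κ (Kap (m + 1)) + η - κ) + gK m (max κ (Kap (m + 1)) + η) ≤
      gK (m + 1) κ + ((m : ℝ) + 1) * η := by
  rcases le_total κ (Kap (m + 1)) with h | h
  · rw [max_eq_right h]
    have h1 : gK m (Kap (m + 1) + η) ≤ gK m (Kap (m + 1)) := gK_anti m (by linarith)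
    have h2 : gK m (Kap (m + 1)) = ∑ i ∈ Finset.range m, (Kap (i + 1) - Kap (m + 1)) := by
      refine Finset.sum_congr rfl fun i hi => max_eq_left ?_
      have : Kap (m + 1) ≤ Kap (i + 1) := Kap_anti (by
        have := Finset.mem_range.mp hi
        omega)
      linarith
    have h3 : gK (m + 1) κ = ∑ i ∈ Finset.range (m + 1), (Kap (i + 1) - κ) := by
      refine Finset.sum_congr rfl fun i hi => max_eq_left ?_
      have : Kap (m + 1) ≤ Kap (i + 1) := Kap_anti (by
        have := Finset.mem_range.mp hi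
        omega)
      linarith
    have h4 : ∑ i ∈ Finset.range m, (Kap (i + 1) - Kap (m + 1)) =
        ∑ i ∈ Finset.range m, Kap (i + 1) - m * Kap (m + 1) := by
      rw [Finset.sum_sub_distrib]
      simp
    have h5 : ∑ i ∈ Finset.range (m + 1), (Kap (i + 1) - κ) =
        ∑ i ∈ Finset.range m, Kap (i + 1) + Kap (m + 1) - (m + 1) * κ := by
      rw [Finset.sum_sub_distrib, Finset.sum_range_succ]
      simp
    rw [h3, h5]
    rw [h2, h4] at h1
    nlinarith
  · rw [max_eq_left h]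
    have h1 : gK m (κ + η) ≤ gK m κ := gK_anti m (by linarith)
    have h2 : gK m κ ≤ gK (m + 1) κ := gK_mono (Nat.le_succ m) κ
    nlinarith

/-- the conditions on the list of primes pass to subsets -/
lemma ok_mono {U : Ultrafilter ℕ} {B : ℕ → ℕ} {σ : Type} {S S' : ℕ → Finset (σ → ℤ)}
    {c : PC σ} (h : c.Ok U B S) (hs : ∀ j, S' j ⊆ S j) : c.Ok U B S' :=
  ⟨h.pos, h.prime, h.size, h.cls.mono fun j hj z hz i => hj z (hs j hz) i⟩

theorem rec_proof {U : Ultrafilter ℕ} {B : ℕ → ℕ} (hB : Tendsto B (U : Filter ℕ) atTop)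
    {σ : Type} [Fintype σ] {K : Type} [Field K] {φ : (ℕ → ℤ) →+* K} (hK : IsK U φ)
    (ε : σ → ℤ) {f : ℕ} (h : Fin f → σ → ℤ) (N : MvPolynomial σ ℤ)
    (hN : ∀ (k : Type) [Field k] [CharZero k] (ξ : σ → k), Sol ε ξ →
      aeval ξ N ≠ 0 → Cone ε ξ h) (u : Fin f → K) :
    ∀ (m : ℕ) (P : Ideal (MvPolynomial σ K)), P.IsPrime → HasDim P m →
    (∀ n, 1 ≤ n → n ≤ 4 → pF K ε n ∈ P) →
    (∀ l, lin K (h l) - C (u l) ∈ P) →
    ∀ (S : ℕ → Finset (σ → ℤ)), Van U φ S P → InBox B S →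
    (∀ j, ∀ z ∈ S j, eval z N ≠ 0) →
    ∀ (L : List (PC σ)), (∀ c ∈ L, c.Ok U B S) → Dis U L →
    (∀ c ∈ L, ∀ᶠ j in (U : Filter ℕ), ∀ z ∈ S j, ¬ (c.p j : ℤ) ∣ eval z N) →
    Expo U B S (gK m (L.map PC.β).sum) := by
  classical
  intro m
  induction m using Nat.strong_induction_on with
  | _ m ih =>
  intro P hprime hdim hP hu S hV hbox hN0 L hL hdis hNp
  rcases m with _ | n
  · have h1 := expo_of_bigO hB hK hdim.1 hV hbox
    simpa [gK] using h1
  · set κ := (L.map PC.β).sum with hκ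
    refine expo_of_forall (c := (n : ℝ) + 1) (by positivity) fun η hη => ?_
    set κ' := max κ (Kap (n + 1)) + η with hκ'
    have hδ : 0 < κ' - κ := by
      have := le_max_left κ (Kap (n + 1))
      rw [hκ']
      linarith
    obtain ⟨q, C, T, S1, hS1, hq, hqL⟩ := good_prime hB S hbox N hN0 (κ' - κ) hδ L
    have hV1 : Van U φ S1 P := van_mono hV (Eventually.of_forall hS1)
    obtain ⟨C1, ξ, hC1⟩ := exists_class hK (hq.mono fun j hj => hj.1) hdim.1 hV1
    set S2 : ℕ → Finset (σ → ℤ) := fun j =>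
      (S1 j).filter fun z => ∀ i, (q j : ℤ) ∣ z i - ξ j i with hS2def
    have hS2a : ∀ j, S2 j ⊆ S1 j := fun j => Finset.filter_subset _ _
    have hS2 : ∀ j, S2 j ⊆ S j := fun j => (hS2a j).trans (hS1 j)
    have hV2 : Van U φ S2 P := van_mono hV (Eventually.of_forall hS2)
    have hbox2 : InBox B S2 := fun j z hz => hbox j z (hS2 j hz)
    set c0 : PC σ := ⟨q, ξ, κ' - κ⟩ with hc0
    have hok0 : c0.Ok U B S2 :=
      ⟨hδ, hq.mono fun j hj => hj.1, hq.mono fun j hj => hj.2.1,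
        Eventually.of_forall fun j z hz i => (Finset.mem_filter.mp hz).2 i⟩
    have hL2 : ∀ c ∈ c0 :: L, c.Ok U B S2 := by
      intro c hc
      rcases List.mem_cons.mp hc with rfl | hc
      · exact hok0
      · exact ok_mono (hL c hc) hS2
    have hdis2 : Dis U (c0 :: L) := by
      refine List.pairwise_cons.mpr ⟨fun c hc => ?_, hdis⟩
      exact hqL c hc
    have hNp2 : ∀ c ∈ c0 :: L, ∀ᶠ j in (U : Filter ℕ), ∀ z ∈ S2 j,
        ¬ (c.p j : ℤ) ∣ eval z N := by
      intro c hc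
      rcases List.mem_cons.mp hc with rfl | hc
      · exact hq.mono fun j hj z hz => hj.2.2.2.2 z (hS2a j hz)
      · exact (hNp c hc).mono fun j hj z hz => hj z (hS2 j hz)
    have hsum2 : ((c0 :: L).map PC.β).sum = κ' := by
      rw [List.map_cons, List.sum_cons, ← hκ]
      simp [hc0]
    -- it is enough to treat S2
    have hE2 : Expo U B S2 (gK n κ') := by
      by_cases hne : ∀ᶠ j in (U : Filter ℕ), S2 j = ∅
      · exact expo_empty hne
      have hne' : ∀ᶠ j in (U : Filter ℕ), (S2 j).Nonempty := by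
        have := Ultrafilter.eventually_not.mpr hne
        exact this.mono fun j hj => Finset.nonempty_iff_ne_empty.mpr hj
      have hKpos : 0 < Kap (n + 1) := Kap_pos _
      obtain ⟨F, hF, hFz⟩ := det_lemma hB hK (Nat.succ_le_succ (Nat.zero_le n)) hdim hV2 hbox2
        (c0 :: L) hL2 hdis2 (ρ := Kap (n + 1) ^ (n + 1)) (pow_pos hKpos _)
        (fun c hc => locB hB hK ε h N hN (Nat.succ_le_succ (Nat.zero_le n)) hdim hP u hu hV2
          hne' c (hL2 c hc) (hNp2 c hc))
        (by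
          rw [hsum2]
          refine pow_lt_pow_left₀ ?_ hKpos.le (Nat.succ_ne_zero n)
          have := le_max_right κ (Kap (n + 1))
          rw [hκ']
          linarith)
      refine prime_ind hK (fun S => Expo U B S (gK n κ')) (fun S hS => expo_empty hS)
        (fun S S' S'' h1 h2 h3 => expo_union hB h1 h2 h3) (P ⊔ Ideal.span {F}) S2
        (van_sup_span hV2 hFz) ?_
      intro P' hP' hle S' hS' hV'
      have hPP' : P < P' := by
        refine lt_of_le_of_ne (le_sup_left.trans hle) ?_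
        rintro rfl
        exact hF (hle (Ideal.mem_sup_right (Ideal.mem_span_singleton_self F)))
      obtain ⟨m', hm'⟩ := exists_hasDim P' hP'.ne_top
      have hd : m' < n + 1 := HasDim.lt hprime hPP' hdim hm'
      have h5 := ih m' hd P' hP' hm' (fun n h1 h4 => hPP'.le (hP n h1 h4))
        (fun l => hPP'.le (hu l)) S' hV' (fun j z hz => hbox2 j z (hS' j hz))
        (fun j z hz => hN0 j z (hS2 j (hS' j hz))) (c0 :: L)
        (fun c hc => ok_mono (hL2 c hc) hS') hdis2
        (fun c hc => (hNp2 c hc).mono fun j hj z hz => hj z (hS' j hz))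
      rw [hsum2] at h5
      exact expo_mono hB h5 (gK_mono (by omega) κ')
    -- the cost of the refinement
    have hcard : ∀ᶠ j in (U : Filter ℕ), ((S j).card : ℝ) ≤
        ((T : ℝ) * C1 * C ^ (n + 1)) * (B j : ℝ) ^ (((n : ℝ) + 1) * (κ' - κ)) *
          ((S2 j).card : ℝ) := by
      filter_upwards [hq, hC1, ev_pos hB] with j h1 h2 h3
      have h5 : (S j).card ≤ T * (C1 * q j ^ (n + 1) * (S2 j).card) :=
        h1.2.2.2.1.trans (Nat.mul_le_mul_left _ h2)
      have h6 : (q j : ℝ) ^ (n + 1) ≤ C ^ (n + 1) * (B j : ℝ) ^ (((n : ℝ) + 1) * (κ' - κ)) := by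
        have h7 : (q j : ℝ) ^ (n + 1) ≤ (C * (B j : ℝ) ^ (κ' - κ)) ^ (n + 1) :=
          pow_le_pow_left₀ (Nat.cast_nonneg _) h1.2.2.1 _
        refine h7.trans (le_of_eq ?_)
        rw [mul_pow, ← Real.rpow_natCast ((B j : ℝ) ^ (κ' - κ)), ← Real.rpow_mul (by linarith)]
        congr 2
        push_cast
        ring
      calc ((S j).card : ℝ) ≤ ((T * (C1 * q j ^ (n + 1) * (S2 j).card) : ℕ) : ℝ) := by
            exact_mod_cast h5
        _ = T * (C1 * (q j : ℝ) ^ (n + 1) * ((S2 j).card : ℝ)) := by push_cast; ring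
        _ ≤ T * (C1 * (C ^ (n + 1) * (B j : ℝ) ^ (((n : ℝ) + 1) * (κ' - κ))) *
              ((S2 j).card : ℝ)) := by gcongr
        _ = _ := by ring
    have h9 := expo_scale hB hE2 hcard
    refine expo_mono hB h9 ?_
    have h10 := gK_step n κ η hη.le
    rw [← hκ'] at h10
    linarith

end Pool.Agent.H19.N6
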